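import Pool.Agent.Q200.HS.SMain

/-!
# Voevodsky's conjecture for products of hypersurfaces from single even-dimensional hypersurfaces

We prove that Voevodsky's smash-nilpotence conjecture holds for all products of smooth hypersurfaces
over the complex numbers, of all dimensions (even or odd) and degrees, and for all motives made from
them by tensor products, direct sums and direct summands, in all codimensions, if and only if it holds
for the single smooth hypersurfaces of even dimension.
-/

open CategoryTheory MonoidalCategory

universe v u w

namespace Pool.Agent.Results.MP_bf8edd_ag.EvenDimensionalHypersurfaces

open Pool.Agent.Q200.HS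

/-- **Even-dimensional hypersurfaces decide all products of hypersurfaces.** Let `T` be the Chow
motives over the complex numbers with rational coefficients, the smooth hypersurfaces and the
homologically trivial cycles (`hT`: known facts). The following statements are equivalent.

1. The homologically trivial cycles in `CH^i(X)` are smash-nilpotent, for all smooth hypersurfaces `X`
  of even dimension and all `i`.
2. The homologically trivial cycles in `CH^i(M)` are smash-nilpotent, for all `i` and all motives `M`
  which are obtained from motives of smooth hypersurfaces (of any dimensions and degrees), the unit and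
  the Lefschetz motive by tensor products, direct sums and direct summands; in particular for all
  products `X_1 × ⋯ × X_r`. -/
theorem result {𝓜 : Type u} [Category.{v} 𝓜] [MonoidalCategory 𝓜] [Preadditive 𝓜]
    [BraidedCategory 𝓜] [MonoidalPreadditive 𝓜] {T : NullMot.{v, u, w} 𝓜} (hT : T.Facts) :
    (∀ X : T.Hyp, Even (T.dim X) → ∀ i, T.Smash i (T.mot X)) ↔
      ∀ M : 𝓜, T.Gen M → ∀ i, T.Smash i M :=
  (NullMot.final hT Set.univ
    (fun N D hD => ⟨(2 * N, D), trivial, by simp, by simp; omega, dvd_refl _, hD⟩)
    Set.univ (fun e => ⟨1, one_pos, trivial⟩) id id Filter.tendsto_id Filter.tendsto_id).out 1 2

end Pool.Agent.Results.MP_bf8edd_ag.EvenDimensionalHypersurfaces
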