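import Pool.Agent.Q26.CP.AllFour
import Pool.Agent.Q26.CP.Four

/-!
# Voevodsky's conjecture: one exponent for each bounded type, and modulo primes

Consider pairs `(X, a)` of a smooth projective variety and a cycle of a bounded type, e.g.
`X ⊂ ℙ^N` of given dimension and degree and `a = Z₁ - Z₂` with `Z₁`, `Z₂` effective of codimension `i`
and given degree. The following are equivalent.

1. Voevodsky's conjecture for all complex pairs of this type: if `a` is homologically trivial, then
   `a^{× m} = 0` in `CH^{mi}(X^m) ⊗ ℚ` for some `m ≥ 1`.
2. There is one number `n` such that for all pairs `(X, a)` of this type over all algebraically closed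
   fields of characteristic zero with `a` homologically trivial, one has `a^{× m} = 0` for some
   `1 ≤ m ≤ n`, and in fact `b a^{× m}`, for some `1 ≤ b ≤ n`, is rationally trivial by a rational
   equivalence of degree at most `n`.
3. There is one number `n` such that the same holds over `F̄_p`, for infinitely many primes `p`.
4. There is one number `n` such that the same holds over `F̄_p`, for all but finitely many primes `p`.

A given number `n` works over one algebraically closed field of characteristic zero iff it works over
`F̄_p` for infinitely many `p`, and iff it works for almost all `p`. For the cycles which are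
algebraically equivalent to zero by a family of bounded degree, there is one exponent for all pairs
of the type over all algebraically closed fields of all characteristics.
-/

set_option autoImplicit false

namespace Pool.Agent.Results.MP_bf8edd_ag.OneExponent

open Pool.Agent.Q26.CP

/-- The pairs `(X, a)` of a smooth projective variety over an algebraically closed field `K` and a
cycle on it. There are bounded types `t : Ty`; the pairs of type `t` over `K` are parametrized by the
points of `K ^ k t` with the property `isPair t`. The property `hom t` says that `a` is homologically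
trivial, and `nil t n` says that for some `1 ≤ m, b ≤ n` the cycle `b a^{× m}` is rationally trivial
by a rational equivalence of degree at most `n`. These are first-order properties (in a family the
cohomology class of a cycle is locally constant; relative Hilbert schemes). `SmashNilpotent K t x`
says that `a^{× m} = 0` in the Chow group with rational coefficients for some `m ≥ 1`.

`Alg t` says that the type `t` consists of cycles which are algebraically equivalent to zero (by a
family of bounded degree); they are smash nilpotent by the theorem of Voevodsky and Voisin. -/
structure Pairs where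
  Ty : Type
  k : Ty → ℕ
  isPair : ∀ t, Pred (k t)
  hom : ∀ t, Pred (k t)
  nil : ∀ t, ℕ → Pred (k t)
  fo_isPair : ∀ t, IsFirstOrder (isPair t)
  fo_hom : ∀ t, IsFirstOrder (hom t)
  fo_nil : ∀ t n, IsFirstOrder (nil t n)
  nil_mono : ∀ t (m n : ℕ), m ≤ n → ∀ (K : Type) [Field K] (x : Fin (k t) → K),
    nil t m K x → nil t n K x
  SmashNilpotent : ∀ (K : Type) [Field K] (t : Ty), (Fin (k t) → K) → Prop
  nil_iff : ∀ (K : Type) [Field K] [IsAlgClosed K] (t : Ty) (x : Fin (k t) → K),
    isPair t K x → (SmashNilpotent K t x ↔ ∃ n, nil t n K x)
  Alg : Ty → Prop
  voisin : ∀ t, Alg t → ∀ (K : Type) [Field K] [IsAlgClosed K] (x : Fin (k t) → K),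
    isPair t K x → SmashNilpotent K t x

/-- Voevodsky's conjecture for the complex pairs of type `t` -/
def Voevodsky (A : Pairs) (t : A.Ty) : Prop :=
  ∀ x : Fin (A.k t) → ℂ, A.isPair t ℂ x → A.hom t ℂ x → A.SmashNilpotent ℂ t x

/-- for all homologically trivial cycles of type `t` over `K` the cycle `b a^{× m}` is rationally
trivial for some `1 ≤ m, b ≤ n`, by a rational equivalence of degree at most `n` -/
def Exponent (A : Pairs) (t : A.Ty) (n : ℕ) (K : Type) [Field K] : Prop :=
  ∀ x : Fin (A.k t) → K, A.isPair t K x → A.hom t K x → A.nil t n K x

/-- one exponent for all algebraically closed fields of characteristic zero -/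
def OneCharZero (A : Pairs) (t : A.Ty) : Prop :=
  ∃ n, ∀ (K : Type) [Field K] [IsAlgClosed K] [CharZero K], Exponent A t n K

/-- one exponent for `F̄_p`, for infinitely many primes `p` -/
def OneInfinitely (A : Pairs) (t : A.Ty) : Prop :=
  ∃ n, {p : Nat.Primes | Exponent A t n (Fbar p)}.Infinite

/-- one exponent for `F̄_p`, for all but finitely many primes `p` -/
def OneAlmost (A : Pairs) (t : A.Ty) : Prop :=
  ∃ n, {p : Nat.Primes | ¬ Exponent A t n (Fbar p)}.Finite

/-- Voevodsky's conjecture for one type as a `Problem` -/
def Pairs.problem (A : Pairs) (t : A.Ty) : Problem where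
  k := A.k t
  hyp _ := fun K _ x => A.isPair t K x ∧ A.hom t K x
  con := A.nil t
  fo_hyp _ := (A.fo_isPair t).and (A.fo_hom t)
  fo_con := A.fo_nil t
  hyp_anti _ _ _ _ _ _ hx := hx
  con_mono := A.nil_mono t

theorem uniform_iff (A : Pairs) (t : A.Ty) (n : ℕ) (K : Type) [Field K] :
    (A.problem t).Uniform n K ↔ Exponent A t n K :=
  ⟨fun h x h1 h2 => h x ⟨h1, h2⟩, fun h x hx => h x hx.1 hx.2⟩

theorem voevodsky_iff (A : Pairs) (t : A.Ty) : Voevodsky A t ↔ (A.problem t).Solved ℂ := by
  constructor
  · intro h x hx
    exact (A.nil_iff ℂ t x (hx 0).1).1 (h x (hx 0).1 (hx 0).2)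
  · intro h x h1 h2
    exact (A.nil_iff ℂ t x h1).2 (h x fun _ => ⟨h1, h2⟩)

/-- For each bounded type `t` of pairs `(X, a)` the following are equivalent: Voevodsky's conjecture
for all complex pairs of type `t`; there is one exponent (and one bound for the rational equivalences)
for all homologically trivial cycles of type `t` over all algebraically closed fields of characteristic
zero; the same over `F̄_p` for infinitely many primes `p`; the same over `F̄_p` for all but finitely many
primes `p`. A number works over one algebraically closed field of characteristic zero iff it works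
for infinitely many `p` iff it works for almost all `p`. For cycles algebraically equivalent to zero of
bounded type there is one exponent for all algebraically closed fields of all characteristics. -/
theorem result (A : Pairs) (t : A.Ty) :
    [Voevodsky A t, OneCharZero A t, OneInfinitely A t, OneAlmost A t].TFAE ∧
    (∀ (n : ℕ) (K : Type) [Field K] [IsAlgClosed K] [CharZero K],
      (Exponent A t n K ↔ {p : Nat.Primes | Exponent A t n (Fbar p)}.Infinite) ∧
      (Exponent A t n K ↔ {p : Nat.Primes | ¬ Exponent A t n (Fbar p)}.Finite)) ∧
    (A.Alg t → ∃ n, ∀ (K : Type) [Field K] [IsAlgClosed K] (x : Fin (A.k t) → K),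
      A.isPair t K x → A.nil t n K x) := by
  refine ⟨(A.problem t).four _ (voevodsky_iff A t) (fun n K _ => Exponent A t n K)
      (fun n K _ => uniform_iff A t n K), fun n K _ _ _ =>
    (A.problem t).four' (fun n K _ => Exponent A t n K) (fun n K _ => uniform_iff A t n K) n K,
    fun h => ?_⟩
  let P : Problem :=
    { k := A.k t
      hyp := fun _ => A.isPair t
      con := A.nil t
      fo_hyp := fun _ => A.fo_isPair t
      fo_con := A.fo_nil t
      hyp_anti := fun _ _ _ _ _ _ hx => hx
      con_mono := A.nil_mono t }
  exact P.solved_iff_all.1 fun K _ _ x hx =>
    (A.nil_iff K t x (hx 0)).1 (A.voisin t h K x (hx 0))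

end Pool.Agent.Results.MP_bf8edd_ag.OneExponent
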