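import Pool.Agent.Q226.PS.Main

set_option autoImplicit false

/-!
# Voevodsky's conjecture for products of curves, surfaces and abelian varieties
-/

open CategoryTheory CategoryTheory.Limits MonoidalCategory

universe v u

namespace Pool.Agent.Results.MP_bf8edd_ag.SimplyConnectedSurfacePowers

open Pool.Agent.Q226.SC (Geo)
open Pool.Agent.Q226.PS

/-- Let `D` be the Chow motives over the complex numbers with rational coefficients and the
homologically trivial cycles (`F`: known facts), and let `𝒮` be a class of simply connected surfaces
such that every simply connected surface is dominated by a surface in `𝒮`, for instance those with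
very ample canonical class. The following are equivalent.

1. All homologically trivial cycles on all finite products of curves, surfaces and abelian varieties
   are smash-nilpotent.

2. For each surface `S` in `𝒮` and each `R` there are a power `S^r` and a codimension `e` with
   `e ≥ R` and `2 r - e ≥ R` such that the homologically trivial elements of `CH^e(S^r)` are
   smash-nilpotent. -/
theorem result {G : Geo} {𝓜 : Type u} [Category.{v} 𝓜] [MonoidalCategory 𝓜] [Preadditive 𝓜]
    [Linear ℚ 𝓜] [HasBinaryBiproducts 𝓜] [MonoidalPreadditive 𝓜] [BraidedCategory 𝓜]
    [RightRigidCategory 𝓜] (D : Data G 𝓜) (F : D.Facts) (𝒮 : G.Var → Prop)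
    (h𝒮 : D.Cofinal 𝒮) : D.AllProducts ↔ D.Large 𝒮 :=
  main F h𝒮

end Pool.Agent.Results.MP_bf8edd_ag.SimplyConnectedSurfacePowers
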