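import Pool.Agent.Q200.HS.SMain

/-!
# Smash-nilpotent cycles on hypersurfaces of even dimension: sparse codimensions suffice

Call `2 i - n` the *defect* of a cycle of codimension `i` on a motive of weight `n`. A cycle `a` is
smash-nilpotent if and only if `a^(× k)` is, and the defect of `a^(× k)` is `k` times the defect
of `a`; so the defects in a very sparse set suffice, if one can pass from `X^k` back to a single
variety. For hypersurfaces this is possible: the tensor products of the primitive motives
of hypersurfaces `f(x) = 0`, `g(y) = 0` are direct summands, up to a Tate twist, of the motives of the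
joins `f(x) + g(y) = 0` (Shioda, Katsura), and all defects are preserved.

We prove that Voevodsky's conjecture holds for all smooth hypersurfaces of even dimension over the
complex numbers, in all codimensions, as soon as it holds for the hypersurfaces

  `W : f(x_0, …, x_(a+1)) + (y_1^d - z_1^d) + ⋯ + (y_k^d - z_k^d) = 0`, `a ≤ ω(n)`, `n = dim W`,

of even dimension `n`, and for the codimensions `m = (n + e) / 2`, `e` in `E`, `|e| ≤ φ(n)`. Here `E`
is any set of integers which contains a positive multiple of each integer, for example
`{0} ∪ {± j! : j ≥ 1}`, `ω` and `φ` tend to infinity, however slowly, and the pairs `(n, d)` are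
restricted to any set with arbitrarily large even `n` and arbitrarily divisible `d`.
-/

open CategoryTheory MonoidalCategory

universe v u w

namespace Pool.Agent.Results.MP_bf8edd_ag.SparseCodimensions

open Pool.Agent.Q200.HS

/-- **Voevodsky's smash-nilpotence conjecture: sparse codimensions.** Let `T` be the Chow
motives over the complex numbers with rational coefficients, the smooth hypersurfaces and the
homologically trivial cycles (`hT`: known facts). Let `S` be a set of pairs `(n, d)` which contains,
for all `N` and `D`, a pair with `n ≥ N` even and `D ∣ d`; let `E` be a set of integers which contains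
a positive multiple of each integer; and let `ω, φ : ℕ → ℕ` tend to infinity. The following statements
are equivalent.

1. The homologically trivial cycles in `CH^m(W)` are smash-nilpotent for all hypersurfaces `W` with
  `(dim W, deg W) ∈ S` which are iterated suspensions `f(x) + (y_1^d - z_1^d) + ⋯ = 0` of
  hypersurfaces `X : f(x) = 0` with `dim X ≤ ω(dim W)`, and for the codimensions `m` with
  `2 m - dim W ∈ E` and `|2 m - dim W| ≤ φ(dim W)`.
2. The homologically trivial cycles in `CH^i(X)` are smash-nilpotent, for all smooth hypersurfaces `X`
  of even dimension and all `i`. -/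
theorem result {𝓜 : Type u} [Category.{v} 𝓜] [MonoidalCategory 𝓜] [Preadditive 𝓜]
    [BraidedCategory 𝓜] [MonoidalPreadditive 𝓜] {T : NullMot.{v, u, w} 𝓜} (hT : T.Facts)
    (S : Set (ℕ × ℕ)) (hS : EvenPairs S) (E : Set ℤ) (hE : HitsRays E) (ω φ : ℕ → ℕ)
    (hω : Filter.Tendsto ω Filter.atTop Filter.atTop)
    (hφ : Filter.Tendsto φ Filter.atTop Filter.atTop) :
    T.Diagonal S E ω φ ↔ ∀ X : T.Hyp, Even (T.dim X) → ∀ i, T.Smash i (T.mot X) :=
  (NullMot.final hT S hS E hE ω φ hω hφ).out 0 1

end Pool.Agent.Results.MP_bf8edd_ag.SparseCodimensions
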